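import Pool.Agent.L7h28.HF.Stm

/-!
# Project HF, part POL: the pieces in polar coordinates
-/

set_option autoImplicit false

noncomputable section

namespace Pool.Agent.L7h53.HF

open Set
open Pool.Agent.L7h28.HF

/-- the vector of a point in polar coordinates -/
def vec (p : ℝ × ℝ) : Fin 3 → ℝ := ![Real.cos p.1, Real.sin p.1, p.2]

theorem vec_ne (p : ℝ × ℝ) : vec p ≠ 0 := by
  intro h
  have h0 : Real.cos p.1 = 0 := congrFun h 0
  have h1 : Real.sin p.1 = 0 := congrFun h 1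
  have := Real.sin_sq_add_cos_sq p.1
  rw [h0, h1] at this
  norm_num at this

theorem vec_cont : Continuous vec := by
  refine continuous_pi fun i => ?_
  fin_cases i
  · exact Real.continuous_cos.comp continuous_fst
  · exact Real.continuous_sin.comp continuous_fst
  · exact continuous_snd

theorem G_eq {F : MvPolynomial (Fin 3) ℝ} {a : ℝ} {b c : ℕ → ℝ} (hQ : Q4 F a b c) (θ τ : ℝ) :
    G a b c θ τ = MvPolynomial.eval ![Real.cos θ, Real.sin θ, τ] F := by
  rw [hQ.2]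
  rfl

theorem pol_eq {C K : Set (Fin 3 → ℝ)} (h : C = K ∩ {v | v ≠ 0}) : pol C = vec ⁻¹' K := by
  ext p
  constructor
  · intro hp
    have hp' : vec p ∈ C := hp
    rw [h] at hp'
    exact hp'.1
  · intro hp
    change vec p ∈ C
    rw [h]
    exact ⟨hp, vec_ne p⟩

theorem eta3 (v : Fin 3 → ℝ) : v = ![v 0, v 1, v 2] := by
  funext i
  fin_cases i <;> rfl

theorem axis {F : MvPolynomial (Fin 3) ℝ} {a : ℝ} {b c : ℕ → ℝ} (hQ : Q4 F a b c)
    {v : Fin 3 → ℝ} (hv : v ∈ Pool.Agent.L7h17.OC.realCone F) (h0 : v 0 = 0) (h1 : v 1 = 0) :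
    False := by
  obtain ⟨hne, he⟩ := hv
  rw [eta3 v, hQ.2, h0, h1] at he
  have e1 : ∑ i ∈ Finset.range 5, b i * (0 : ℝ) ^ i * 0 ^ (4 - i) = 0 := by
    simp [Finset.sum_range_succ]
  have e2 : ∑ i ∈ Finset.range 9, c i * (0 : ℝ) ^ i * 0 ^ (8 - i) = 0 := by
    simp [Finset.sum_range_succ]
  rw [e1, e2, zero_mul, add_zero, add_zero] at he
  rcases mul_eq_zero.1 he with h | h
  · exact hQ.1 h
  · have h2 : v 2 = 0 := by
      exact (pow_eq_zero_iff (by norm_num)).1 h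
    apply hne
    rw [eta3 v, h0, h1, h2]
    funext i
    fin_cases i <;> rfl

theorem exists_angle {C : Set (Fin 3 → ℝ)} (hcone : ∀ v ∈ C, ∀ c : ℝ, c ≠ 0 → c • v ∈ C)
    {v : Fin 3 → ℝ} (hv : v ∈ C) (h : ¬ (v 0 = 0 ∧ v 1 = 0)) :
    ∃ ψ τ : ℝ, 0 ≤ τ ∧ ![Real.cos ψ, Real.sin ψ, τ] ∈ C := by
  set z : ℂ := ⟨v 0, v 1⟩ with hz
  have hz0 : z ≠ 0 := by
    intro h0
    exact h ⟨congrArg Complex.re h0, congrArg Complex.im h0⟩
  have hr : 0 < ‖z‖ := norm_pos_iff.2 hz0
  have hc : Real.cos (Complex.arg z) = v 0 / ‖z‖ := Complex.cos_arg hz0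
  have hs : Real.sin (Complex.arg z) = v 1 / ‖z‖ := Complex.sin_arg z
  rcases le_total 0 (v 2) with h2 | h2
  · refine ⟨Complex.arg z, v 2 / ‖z‖, by positivity, ?_⟩
    have h3 := hcone v hv (1 / ‖z‖) (by positivity)
    have e : (![Real.cos (Complex.arg z), Real.sin (Complex.arg z), v 2 / ‖z‖] : Fin 3 → ℝ) =
        (1 / ‖z‖) • v := by
      rw [hc, hs]
      funext i
      fin_cases i
      · change v 0 / ‖z‖ = 1 / ‖z‖ * v 0
        ring
      · change v 1 / ‖z‖ = 1 / ‖z‖ * v 1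
        ring
      · change v 2 / ‖z‖ = 1 / ‖z‖ * v 2
        ring
    rw [e]
    exact h3
  · refine ⟨Complex.arg z + Real.pi, -v 2 / ‖z‖, div_nonneg (by linarith) hr.le, ?_⟩
    have h3 := hcone v hv (-(1 / ‖z‖)) (neg_ne_zero.2 (by positivity))
    have e : (![Real.cos (Complex.arg z + Real.pi), Real.sin (Complex.arg z + Real.pi),
        -v 2 / ‖z‖] : Fin 3 → ℝ) = (-(1 / ‖z‖)) • v := by
      rw [Real.cos_add_pi, Real.sin_add_pi, hc, hs]
      funext i
      fin_cases i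
      · change -(v 0 / ‖z‖) = -(1 / ‖z‖) * v 0
        ring
      · change -(v 1 / ‖z‖) = -(1 / ‖z‖) * v 1
        ring
      · change -v 2 / ‖z‖ = -(1 / ‖z‖) * v 2
        ring
    rw [e]
    exact h3

theorem s_POL : S_POL := by
  intro k F C a b c hQ hS
  have hmem : ∀ i, ∀ v ∈ C i, v ∈ Pool.Agent.L7h17.OC.realCone F := by
    intro i v hv
    rw [← hS.cov]
    exact mem_iUnion.2 ⟨i, hv⟩
  have hdisj : ∀ i j p, p ∈ pol (C i) → p ∈ pol (C j) → i = j := by
    intro i j p hi hj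
    by_contra hne
    exact Set.disjoint_left.1 (hS.disj i j hne) hi hj
  have hclosed : ∀ i, IsClosed (pol (C i)) := by
    intro i
    obtain ⟨K, hK, hCK⟩ := hS.closed i
    rw [pol_eq hCK]
    exact hK.preimage vec_cont
  have hG : ∀ i, ∀ p ∈ pol (C i), G a b c p.1 p.2 = 0 := by
    intro i p hp
    rw [G_eq hQ]
    exact (hmem i _ hp).2
  refine ⟨fun i => ⟨hG i, hclosed i, ?_⟩, hdisj, ?_, ?_⟩
  · have e : {p : ℝ × ℝ | G a b c p.1 p.2 = 0} \ pol (C i) =
        ⋃ j : {j : Fin k // j ≠ i}, pol (C j.1) := by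
      ext p
      constructor
      · rintro ⟨hp, hpi⟩
        have hp' : G a b c p.1 p.2 = 0 := hp
        have h1 : vec p ∈ Pool.Agent.L7h17.OC.realCone F := by
          refine ⟨vec_ne p, ?_⟩
          rw [G_eq hQ] at hp'
          exact hp'
        rw [← hS.cov] at h1
        obtain ⟨j, hj⟩ := mem_iUnion.1 h1
        refine mem_iUnion.2 ⟨⟨j, ?_⟩, hj⟩
        intro hji
        rw [hji] at hj
        exact hpi hj
      · intro hp
        obtain ⟨⟨j, hji⟩, hj⟩ := mem_iUnion.1 hp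
        refine ⟨hG j p hj, fun hpi => hji (hdisj j i p hj hpi)⟩
    rw [e]
    exact isClosed_iUnion_of_finite fun j => hclosed j.1
  · intro i θ τ h
    have h1 : ![Real.cos θ, Real.sin θ, τ] ∈ C i := h
    have h2 := hS.cone i _ h1 (-1) (by norm_num)
    have e : ((-1 : ℝ) • ![Real.cos θ, Real.sin θ, τ] : Fin 3 → ℝ) =
        ![-Real.cos θ, -Real.sin θ, -τ] := by
      funext i
      fin_cases i
      · change -1 * Real.cos θ = -Real.cos θ
        ring
      · change -1 * Real.sin θ = -Real.sin θ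
        ring
      · change -1 * τ = -τ
        ring
    rw [e] at h2
    constructor
    · change ![Real.cos (θ + Real.pi), Real.sin (θ + Real.pi), -τ] ∈ C i
      rw [Real.cos_add_pi, Real.sin_add_pi]
      exact h2
    · change ![Real.cos (θ - Real.pi), Real.sin (θ - Real.pi), -τ] ∈ C i
      rw [Real.cos_sub_pi, Real.sin_sub_pi]
      exact h2
  · intro i α
    obtain ⟨v, hv⟩ := hS.ne i
    have h01 : ¬ (v 0 = 0 ∧ v 1 = 0) := fun h => axis hQ (hmem i v hv) h.1 h.2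
    obtain ⟨ψ, τ, hτ, hψ⟩ := exists_angle (hS.cone i) hv h01
    have h2pi : (0 : ℝ) < 2 * Real.pi := by positivity
    have hmod := toIcoMod_mem_Ico h2pi α ψ
    refine ⟨toIcoMod h2pi α ψ, τ, hmod.1, hmod.2, hτ, ?_⟩
    have e : toIcoMod h2pi α ψ = ψ - (toIcoDiv h2pi α ψ : ℝ) * (2 * Real.pi) := by
      rw [toIcoMod, zsmul_eq_mul]
    change ![Real.cos (toIcoMod h2pi α ψ), Real.sin (toIcoMod h2pi α ψ), τ] ∈ C i
    rw [e, Real.cos_sub_int_mul_two_pi, Real.sin_sub_int_mul_two_pi]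
    exact hψ

end Pool.Agent.L7h53.HF
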